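import Pool.Agent.Helper99.WP.GoalsK

/-!
# WP, packet GEX: existence and uniqueness of the Green operator
-/

open Finset

namespace Pool.Agent.Helper17.WP

open Pool.Agent.Helper99.WP Pool.Agent.Helper99.ERW

theorem lap_lin {d : ℕ} (p : Site d → Fin d → ℝ) (a b : ℝ) (u v : Site d → ℝ) (x : Site d) :
    lap p (fun z => a * u z + b * v z) x = a * lap p u x + b * lap p v x := by
  unfold lap
  rw [Finset.mul_sum, Finset.mul_sum, ← Finset.sum_add_distrib]
  refine Finset.sum_congr rfl fun l _ => ?_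
  ring

theorem sol_le (hMXP : MXP_stmt) {d : ℕ} {κ : ℝ} {p : Site d → Fin d → ℝ} (hκ : 0 < κ)
    (hp : Ell κ p) {D : Finset (Site d)} {f u v : Site d → ℝ} (hu : IsSol p D f u)
    (hv : IsSol p D f v) (x : Site d) : u x ≤ v x := by
  by_cases hx : x ∈ D
  · have h := hMXP d κ p hκ hp D (fun z => 1 * u z + (-1) * v z) (fun y hy => by
      rw [lap_lin, hu.2 y hy, hv.2 y hy]; linarith) (fun y _ l => ⟨fun h => by
        simp only [hu.1 _ h, hv.1 _ h]; norm_num, fun h => by
        simp only [hu.1 _ h, hv.1 _ h]; norm_num⟩) x hx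
    linarith
  · rw [hu.1 x hx, hv.1 x hx]

theorem sol_unique (hMXP : MXP_stmt) {d : ℕ} {κ : ℝ} {p : Site d → Fin d → ℝ} (hκ : 0 < κ)
    (hp : Ell κ p) {D : Finset (Site d)} {f u v : Site d → ℝ} (hu : IsSol p D f u)
    (hv : IsSol p D f v) : u = v :=
  funext fun x => le_antisymm (sol_le hMXP hκ hp hu hv x) (sol_le hMXP hκ hp hv hu x)

open Classical in
/-- extension by zero -/
noncomputable def ex0 {d : ℕ} (D : Finset (Site d)) (v : {x // x ∈ D} → ℝ) (x : Site d) : ℝ :=
  if h : x ∈ D then v ⟨x, h⟩ else 0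

/-- the linear map to invert -/
noncomputable def lapL {d : ℕ} (p : Site d → Fin d → ℝ) (D : Finset (Site d)) :
    ({x // x ∈ D} → ℝ) →ₗ[ℝ] ({x // x ∈ D} → ℝ) where
  toFun v x := lap p (ex0 D v) x
  map_add' v w := by
    funext x
    have h : ex0 D (v + w) = fun z => 1 * ex0 D v z + 1 * ex0 D w z := by
      funext z
      unfold ex0
      split_ifs <;> simp
    simp only [Pi.add_apply]
    rw [h, lap_lin]
    ring
  map_smul' c v := by
    funext x
    have h : ex0 D (c • v) = fun z => c * ex0 D v z + 0 * ex0 D v z := by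
      funext z
      unfold ex0
      split_ifs <;> simp
    simp only [Pi.smul_apply, RingHom.id_apply, smul_eq_mul]
    rw [h, lap_lin]
    ring

theorem sol_exists (hMXP : MXP_stmt) {d : ℕ} {κ : ℝ} {p : Site d → Fin d → ℝ} (hκ : 0 < κ)
    (hp : Ell κ p) (D : Finset (Site d)) (f : Site d → ℝ) : ∃ u, IsSol p D f u := by
  have hinj : Function.Injective (lapL p D) := by
    rw [← LinearMap.ker_eq_bot, LinearMap.ker_eq_bot']
    intro v hv
    have h1 : IsSol p D (fun _ => 0) (ex0 D v) := by
      refine ⟨fun x hx => by unfold ex0; rw [dif_neg hx], fun x hx => ?_⟩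
      have := congrFun hv ⟨x, hx⟩
      simpa [lapL] using this
    have h2 : IsSol p D (fun _ => 0) (fun _ => (0 : ℝ)) := by
      refine ⟨fun x hx => rfl, fun x hx => ?_⟩
      simp [lap]
    have h3 := sol_unique hMXP hκ hp h1 h2
    funext x
    have := congrFun h3 x.1
    simpa [ex0] using this
  have hsur := LinearMap.injective_iff_surjective.1 hinj
  obtain ⟨v, hv⟩ := hsur (fun x => - f x)
  refine ⟨ex0 D v, fun x hx => by unfold ex0; rw [dif_neg hx], fun x hx => ?_⟩
  exact congrFun hv ⟨x, hx⟩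

/-- PACKET GEX -/
theorem GEX (hMXP : MXP_stmt) : GEX_stmt := by
  intro d κ p hκ hp D f
  have hex := sol_exists hMXP hκ hp D f
  have h1 : IsSol p D f (Gr p D f) := by
    unfold Gr
    rw [dif_pos hex]
    exact Classical.choose_spec hex
  exact ⟨h1, fun u hu => sol_unique hMXP hκ hp hu h1⟩

end Pool.Agent.Helper17.WP
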