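import Pool.Agent.Helper99.WP.GoalsE

/-!
# WP, packet VLE: the expected number of stacks is at most the probability of many visits
-/

open Finset MeasureTheory ProbabilityTheory Filter

namespace Pool.Agent.Helper17.WP

open Pool.Agent.Helper99.WP Pool.Agent.Helper99.ERW

universe u

theorem measurableSet_AtV {d : ℕ} {Ω : Type u} [mΩ : MeasurableSpace Ω] {P : Measure (Env d)}
    {μ : Measure Ω} {env : Ω → Env d} {X : ℕ → Ω → Site d} (h : IsERW P μ env X) (i m : ℕ) :
    MeasurableSet (AtV X i m) := by
  have h1 : MeasurableSet {w | X m w = 0} := (h.measurable_walk m) (measurableSet_singleton 0)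
  have h2 : Measurable (fun w => pastVisits (fun j => X j w) m) :=
    (measurable_pastVisits_hist env X (le_refl m)).mono (h.hist_le m) le_rfl
  exact h1.inter (h2 (measurableSet_singleton i))

theorem AtV_disjoint {d : ℕ} {Ω : Type u} {X : ℕ → Ω → Site d} (i : ℕ) {m n : ℕ} (hmn : m < n) :
    Disjoint (AtV X i m) (AtV X i n) := by
  rw [Set.disjoint_left]
  rintro w ⟨h1, h2⟩ ⟨h3, h4⟩
  have hlt : pastVisits (fun k => X k w) m < pastVisits (fun k => X k w) n := by
    unfold pastVisits
    refine Finset.card_lt_card ?_
    rw [Finset.ssubset_iff_of_subset]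
    · refine ⟨m, ?_, ?_⟩
      · simp only [Finset.mem_filter, Finset.mem_range]
        exact ⟨hmn, by rw [h1, h3]⟩
      · simp
    · intro r hr
      simp only [Finset.mem_filter, Finset.mem_range] at hr ⊢
      exact ⟨by omega, by rw [hr.2, h1, h3]⟩
  rw [h2, h4] at hlt
  exact lt_irrefl _ hlt

theorem exN_val {V : Type*} {m : ℕ} (π : Fin (m + 1) → V) (k : Fin (m + 1)) :
    exN π k = π k := by
  unfold exN
  congr 1
  ext
  simp only
  have := k.2
  omega

/-- PACKET VLE -/
theorem VLE (hVCY : VCY_stmt.{u}) : VLE_stmt.{u} := by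
  intro d Ω mΩ P _ μ _ env X h hP hshift Λ N x i
  rw [hVCY d Ω mΩ P μ env X h hP hshift Λ N x i]
  have hcylm : ∀ (m : ℕ) (π : Fin (m + 1) → Λ),
      MeasurableSet (cyl X (fun k => ((exN π k : Λ) : Site d) - x) m) := fun m π =>
    h.hist_le m _ (measurableSet_cyl_hist env X _ m)
  have hA : ∀ m : ℕ, (∑ π : Fin (m + 1) → Λ,
      if exN π 0 = x ∧ exN π m = x ∧ cnt (exN π) m = i ∧ ∀ k < m, cnt (exN π) k < N then
        μ (cyl X (fun k => ((exN π k : Λ) : Site d) - x) m) else 0) ≤ μ (AtV X i m) := by
    intro m
    rw [← Finset.sum_filter, ← measure_biUnion_finset]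
    · refine measure_mono ?_
      refine Set.iUnion₂_subset fun π hπ => ?_
      simp only [Finset.mem_filter, Finset.mem_univ, true_and] at hπ
      intro w hw
      have hw' : ∀ k ≤ m, X k w = ((exN π k : Λ) : Site d) - x := hw
      refine ⟨by rw [hw' m le_rfl, hπ.2.1, sub_self], ?_⟩
      rw [← hπ.2.2.1]
      unfold pastVisits cnt
      congr 1
      refine Finset.filter_congr fun r hr => ?_
      have hr' : r ≤ m := by
        simp only [Finset.mem_range] at hr
        omega
      change X r w = X m w ↔ _
      rw [hw' r hr', hw' m le_rfl]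
      constructor
      · intro heq
        exact Subtype.ext (sub_left_injective heq)
      · intro heq
        rw [heq]
    · intro π _ π' _ hne
      rw [Function.onFun, Set.disjoint_left]
      intro w hw hw'
      apply hne
      funext k
      have h1 : X k w = ((exN π k : Λ) : Site d) - x := hw k (by have := k.2; omega)
      have h2 : X k w = ((exN π' k : Λ) : Site d) - x := hw' k (by have := k.2; omega)
      rw [exN_val] at h1 h2
      rw [h1] at h2
      exact Subtype.ext (sub_left_injective h2)
    · intro π _
      exact hcylm m π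
  refine le_trans (Finset.sum_le_sum fun m _ => hA m) ?_
  rw [← measure_biUnion_finset]
  · refine measure_mono ?_
    refine Set.iUnion₂_subset fun m _ => ?_
    exact Set.subset_iUnion (fun m => AtV X i m) m
  · intro m _ n _ hne
    rcases lt_or_gt_of_ne hne with hlt | hlt
    · exact AtV_disjoint i hlt
    · exact (AtV_disjoint i hlt).symm
  · intro m _
    exact measurableSet_AtV h i m

end Pool.Agent.Helper17.WP
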